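import Mathlib

/-!
# The greedy set free of `5 w + 2 x = 5 y + 2 z`
-/

set_option autoImplicit false

namespace Pool.Agent.Results.MP_cb51c9_co.GreedyStructure

/-- `S` is free of `5 w + 2 x = 5 y + 2 z`: only the solutions with `w = y` and `x = z` exist
in `S`. -/
def Free (S : Set ℕ) : Prop :=
  ∀ w ∈ S, ∀ x ∈ S, ∀ y ∈ S, ∀ z ∈ S, 5 * w + 2 * x = 5 * y + 2 * z → w = y ∧ x = z

/-- `g` is the greedy sequence: `g 0 = 0`, and `g (i + 1)` is the least integer `m > g i` such that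
`{g 0, ..., g i, m}` is free. -/
def IsGreedy (g : ℕ → ℕ) : Prop :=
  g 0 = 0 ∧ ∀ i, IsLeast {m : ℕ | g i < m ∧ Free (insert m {x | ∃ j ≤ i, x = g j})} (g (i + 1))

/-- the sequence with the ceiling: `a 0 = 0`, `a i = ⌈(5 + 7 ∑_{j < i} a j) / 2⌉`:
`0, 3, 13, 59, ...` -/
def aCeil : ℕ → ℕ
  | 0 => 0
  | n + 1 => (5 + 7 * ∑ j : Fin (n + 1), aCeil j + 1) / 2

/-- the sequence with the floor: `a 0 = 0`, `a i = ⌊(5 + 7 ∑_{j < i} a j) / 2⌋`:
`0, 2, 9, 41, ...` -/
def aFloor : ℕ → ℕ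
  | 0 => 0
  | n + 1 => (5 + 7 * ∑ j : Fin (n + 1), aFloor j) / 2

/-- all sums of finitely many distinct terms of the sequence `a` -/
def sums (a : ℕ → ℕ) : Set ℕ := {x | ∃ S : Finset ℕ, x = ∑ i ∈ S, a i}

/-- the set `{5 x + y : x ∈ A, 0 ≤ y ≤ 4}` -/
def blocks (A : Set ℕ) : Set ℕ := {m | ∃ x ∈ A, ∃ y ≤ 4, m = 5 * x + y}

/-! ### The sequence with the ceiling -/

/-- partial sums -/
def s (n : ℕ) : ℕ := ∑ j ∈ Finset.range (n + 1), aCeil j

lemma s_zero : s 0 = 0 := by simp [s, aCeil]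

lemma s_succ (n : ℕ) : s (n + 1) = s n + aCeil (n + 1) := by
  rw [s, Finset.sum_range_succ]; rfl

lemma a_succ (n : ℕ) : 7 * s n + 5 ≤ 2 * aCeil (n + 1) ∧ 2 * aCeil (n + 1) ≤ 7 * s n + 6 := by
  have h : aCeil (n + 1) = (5 + 7 * s n + 1) / 2 := by
    rw [aCeil, s, Fin.sum_univ_eq_sum_range (fun j => aCeil j) (n + 1)]
  omega

/-- sums of the terms with index at most `n` -/
def AN (n : ℕ) : Set ℕ := {x | ∃ S : Finset ℕ, S ⊆ Finset.range (n + 1) ∧ x = ∑ i ∈ S, aCeil i}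

lemma AN_zero {x : ℕ} : x ∈ AN 0 ↔ x = 0 := by
  constructor
  · rintro ⟨S, hS, rfl⟩
    refine Finset.sum_eq_zero fun i hi => ?_
    have := Finset.mem_range.1 (hS hi)
    have h0 : i = 0 := by omega
    subst h0
    rw [aCeil]
  · rintro rfl
    exact ⟨∅, Finset.empty_subset _, by simp⟩

lemma AN_succ {n x : ℕ} : x ∈ AN (n + 1) ↔ x ∈ AN n ∨ ∃ y ∈ AN n, x = y + aCeil (n + 1) := by
  constructor
  · rintro ⟨S, hS, rfl⟩
    by_cases h : n + 1 ∈ S
    · right
      refine ⟨∑ i ∈ S.erase (n + 1), aCeil i, ⟨S.erase (n + 1), ?_, rfl⟩, ?_⟩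
      · intro i hi
        have h1 := Finset.mem_range.1 (hS (Finset.mem_of_mem_erase hi))
        have h2 := Finset.ne_of_mem_erase hi
        exact Finset.mem_range.2 (by omega)
      · rw [Finset.sum_erase_add S _ h]
    · left
      refine ⟨S, ?_, rfl⟩
      intro i hi
      have h1 := Finset.mem_range.1 (hS hi)
      have h2 : i ≠ n + 1 := by rintro rfl; exact h hi
      exact Finset.mem_range.2 (by omega)
  · rintro (⟨S, hS, rfl⟩ | ⟨y, ⟨S, hS, rfl⟩, rfl⟩)
    · exact ⟨S, hS.trans (Finset.range_subset_range.2 (by omega)), rfl⟩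
    · have hn : n + 1 ∉ S := fun h => by
        have := Finset.mem_range.1 (hS h)
        omega
      refine ⟨insert (n + 1) S, ?_, ?_⟩
      · intro i hi
        rcases Finset.mem_insert.1 hi with rfl | hi
        · exact Finset.mem_range.2 (by omega)
        · have := Finset.mem_range.1 (hS hi)
          exact Finset.mem_range.2 (by omega)
      · rw [Finset.sum_insert hn, add_comm]

lemma AN_le {n x : ℕ} (h : x ∈ AN n) : x ≤ s n := by
  obtain ⟨S, hS, rfl⟩ := h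
  exact Finset.sum_le_sum_of_subset hS

lemma mem_sums {x : ℕ} : x ∈ sums aCeil ↔ ∃ n, x ∈ AN n := by
  constructor
  · rintro ⟨S, rfl⟩
    refine ⟨S.sup id, S, ?_, rfl⟩
    intro i hi
    exact Finset.mem_range.2 (Nat.lt_succ_of_le (Finset.le_sup (f := id) hi))
  · rintro ⟨n, S, -, rfl⟩
    exact ⟨S, rfl⟩

lemma AN_mono {m n : ℕ} (h : m ≤ n) : AN m ⊆ AN n := by
  rintro x ⟨S, hS, rfl⟩
  exact ⟨S, hS.trans (Finset.range_subset_range.2 (by omega)), rfl⟩

/-- covering lemma -/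
lemma cover (n : ℕ) : ∀ Z : ℤ, -5 * (s n : ℤ) - 4 ≤ Z → Z ≤ 7 * s n + 4 →
    ∃ x ∈ AN n, ∃ x1 ∈ AN n, ∃ x2 ∈ AN n,
      -4 ≤ Z - 2 * x - 5 * ((x1 : ℤ) - x2) ∧ Z - 2 * x - 5 * ((x1 : ℤ) - x2) ≤ 4 := by
  induction n with
  | zero =>
    intro Z h1 h2
    rw [s_zero] at h1 h2
    exact ⟨0, AN_zero.2 rfl, 0, AN_zero.2 rfl, 0, AN_zero.2 rfl, by push_cast at *; omega,
      by push_cast at *; omega⟩
  | succ n ih =>
    intro Z h1 h2
    obtain ⟨ha1, ha2⟩ := a_succ n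
    rw [s_succ] at h1 h2
    set a := aCeil (n + 1) with ha
    push_cast at h1 h2
    have up : ∀ x ∈ AN n, x ∈ AN (n + 1) := fun x hx => AN_succ.2 (Or.inl hx)
    have up' : ∀ x ∈ AN n, x + a ∈ AN (n + 1) := fun x hx => AN_succ.2 (Or.inr ⟨x, hx, rfl⟩)
    have hcase : (-5 * (s n : ℤ) - 4 ≤ Z + 5 * a ∧ Z + 5 * a ≤ 7 * s n + 4) ∨
        (-5 * (s n : ℤ) - 4 ≤ Z + 3 * a ∧ Z + 3 * a ≤ 7 * s n + 4) ∨
        (-5 * (s n : ℤ) - 4 ≤ Z ∧ Z ≤ 7 * s n + 4) ∨
        (-5 * (s n : ℤ) - 4 ≤ Z - 2 * a ∧ Z - 2 * a ≤ 7 * s n + 4) ∨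
        (-5 * (s n : ℤ) - 4 ≤ Z - 5 * a ∧ Z - 5 * a ≤ 7 * s n + 4) ∨
        (-5 * (s n : ℤ) - 4 ≤ Z - 7 * a ∧ Z - 7 * a ≤ 7 * s n + 4) := by omega
    rcases hcase with h | h | h | h | h | h
    · obtain ⟨x, hx, x1, hx1, x2, hx2, h3, h4⟩ := ih _ h.1 h.2
      exact ⟨x, up x hx, x1, up x1 hx1, x2 + a, up' x2 hx2, by push_cast; linarith,
        by push_cast; linarith⟩
    · obtain ⟨x, hx, x1, hx1, x2, hx2, h3, h4⟩ := ih _ h.1 h.2
      exact ⟨x + a, up' x hx, x1, up x1 hx1, x2 + a, up' x2 hx2, by push_cast; linarith,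
        by push_cast; linarith⟩
    · obtain ⟨x, hx, x1, hx1, x2, hx2, h3, h4⟩ := ih _ h.1 h.2
      exact ⟨x, up x hx, x1, up x1 hx1, x2, up x2 hx2, h3, h4⟩
    · obtain ⟨x, hx, x1, hx1, x2, hx2, h3, h4⟩ := ih _ h.1 h.2
      exact ⟨x + a, up' x hx, x1, up x1 hx1, x2, up x2 hx2, by push_cast; linarith,
        by push_cast; linarith⟩
    · obtain ⟨x, hx, x1, hx1, x2, hx2, h3, h4⟩ := ih _ h.1 h.2
      exact ⟨x, up x hx, x1 + a, up' x1 hx1, x2, up x2 hx2, by push_cast; linarith,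
        by push_cast; linarith⟩
    · obtain ⟨x, hx, x1, hx1, x2, hx2, h3, h4⟩ := ih _ h.1 h.2
      exact ⟨x + a, up' x hx, x1 + a, up' x1 hx1, x2, up x2 hx2, by push_cast; linarith,
        by push_cast; linarith⟩

/-- witnesses for the rejected numbers -/
lemma witness (n : ℕ) : ∀ X : ℕ, 2 * X ≤ 7 * s n + 4 → X ∉ AN n →
    ∃ x ∈ AN n, ∃ x1 ∈ AN n, ∃ x2 ∈ AN n, x < X ∧ x1 < X ∧ x2 < X ∧
      -4 ≤ 2 * ((X : ℤ) - x) - 5 * ((x1 : ℤ) - x2) ∧
      2 * ((X : ℤ) - x) - 5 * ((x1 : ℤ) - x2) ≤ 4 := by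
  induction n with
  | zero =>
    intro X h1 h2
    rw [s_zero] at h1
    have h0 : X ≠ 0 := fun h => h2 (AN_zero.2 h)
    exact ⟨0, AN_zero.2 rfl, 0, AN_zero.2 rfl, 0, AN_zero.2 rfl, by omega, by omega, by omega,
      by push_cast; omega, by push_cast; omega⟩
  | succ n ih =>
    intro X h1 h2
    obtain ⟨ha1, ha2⟩ := a_succ n
    have hs := s_succ n
    have up : ∀ x ∈ AN n, x ∈ AN (n + 1) := fun x hx => AN_succ.2 (Or.inl hx)
    have up' : ∀ x ∈ AN n, x + aCeil (n + 1) ∈ AN (n + 1) :=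
      fun x hx => AN_succ.2 (Or.inr ⟨x, hx, rfl⟩)
    rcases Nat.lt_or_ge (s (n + 1)) X with h3 | h3
    · obtain ⟨x, hx, x1, hx1, x2, hx2, h4, h5⟩ := cover (n + 1) (2 * X) (by omega)
        (by exact_mod_cast h1)
      have e1 := AN_le hx
      have e2 := AN_le hx1
      have e3 := AN_le hx2
      exact ⟨x, hx, x1, hx1, x2, hx2, by omega, by omega, by omega, by linarith, by linarith⟩
    · rcases Nat.lt_or_ge X (aCeil (n + 1)) with h4 | h4
      · obtain ⟨x, hx, x1, hx1, x2, hx2, h5⟩ := ih X (by omega) (fun h => h2 (up X h))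
        exact ⟨x, up x hx, x1, up x1 hx1, x2, up x2 hx2, h5⟩
      · obtain ⟨x, hx, x1, hx1, x2, hx2, h5, h6, h7, h8, h9⟩ := ih (X - aCeil (n + 1)) (by omega)
          (fun h => h2 (by
            have := up' _ h
            rwa [Nat.sub_add_cancel h4] at this))
        refine ⟨x + aCeil (n + 1), up' x hx, x1, up x1 hx1, x2, up x2 hx2, by omega, by omega,
          by omega, ?_, ?_⟩
        · push_cast [Nat.cast_sub h4] at h8 ⊢; linarith
        · push_cast [Nat.cast_sub h4] at h9 ⊢; linarith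

/-- separation -/
lemma separation (n : ℕ) : ∀ x1 ∈ AN n, ∀ x2 ∈ AN n, ∀ x3 ∈ AN n, ∀ x4 ∈ AN n, x1 ≠ x2 →
    ¬ (-4 ≤ 2 * ((x1 : ℤ) - x2) - 5 * ((x3 : ℤ) - x4) ∧
      2 * ((x1 : ℤ) - x2) - 5 * ((x3 : ℤ) - x4) ≤ 4) := by
  induction n with
  | zero =>
    intro x1 h1 x2 h2 x3 h3 x4 h4 hne
    rw [AN_zero] at h1 h2
    omega
  | succ n ih =>
    intro x1 h1 x2 h2 x3 h3 x4 h4 hne
    obtain ⟨ha1, ha2⟩ := a_succ n
    rw [AN_succ] at h1 h2 h3 h4
    have key : ∀ y1 ∈ AN n, ∀ y2 ∈ AN n, ∀ y3 ∈ AN n, ∀ y4 ∈ AN n, y1 ≤ s n ∧ y2 ≤ s n ∧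
        y3 ≤ s n ∧ y4 ≤ s n ∧ (y1 ≠ y2 → ¬ (-4 ≤ 2 * ((y1 : ℤ) - y2) - 5 * ((y3 : ℤ) - y4) ∧
          2 * ((y1 : ℤ) - y2) - 5 * ((y3 : ℤ) - y4) ≤ 4)) := by
      intro y1 e1 y2 e2 y3 e3 y4 e4
      exact ⟨AN_le e1, AN_le e2, AN_le e3, AN_le e4, ih y1 e1 y2 e2 y3 e3 y4 e4⟩
    rcases h1 with h1 | ⟨y1, h1, rfl⟩ <;> rcases h2 with h2 | ⟨y2, h2, rfl⟩ <;>
      rcases h3 with h3 | ⟨y3, h3, rfl⟩ <;> rcases h4 with h4 | ⟨y4, h4, rfl⟩ <;>
      obtain ⟨k1, k2, k3, k4, k5⟩ := key _ h1 _ h2 _ h3 _ h4 <;> push_cast <;> omega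

/-- the predicted set -/
def P : Set ℕ := blocks (sums aCeil)

lemma P_free : Free P := by
  rintro w ⟨w', hw', w0, hw0, rfl⟩ x ⟨x', hx', x0, hx0, rfl⟩ y ⟨y', hy', y0, hy0, rfl⟩
    z ⟨z', hz', z0, hz0, rfl⟩ h
  obtain ⟨n1, h1⟩ := mem_sums.1 hw'
  obtain ⟨n2, h2⟩ := mem_sums.1 hx'
  obtain ⟨n3, h3⟩ := mem_sums.1 hy'
  obtain ⟨n4, h4⟩ := mem_sums.1 hz'
  set n := max (max n1 n2) (max n3 n4)
  have h1' := AN_mono (show n1 ≤ n by omega) h1
  have h2' := AN_mono (show n2 ≤ n by omega) h2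
  have h3' := AN_mono (show n3 ≤ n by omega) h3
  have h4' := AN_mono (show n4 ≤ n by omega) h4
  by_cases hzx : z' = x'
  · subst hzx
    omega
  · exfalso
    have hz0x0 : z0 = x0 := by omega
    subst hz0x0
    refine separation n z' h4' x' h2' w' h1' y' h3' hzx ⟨?_, ?_⟩ <;> omega

lemma Free.mono {S T : Set ℕ} (h : Free T) (hST : S ⊆ T) : Free S :=
  fun w hw x hx y hy z hz => h w (hST hw) x (hST hx) y (hST hy) z (hST hz)

lemma s_ge (n : ℕ) : n ≤ s n := by
  induction n with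
  | zero => exact Nat.zero_le _
  | succ n ih =>
    rw [s_succ]
    have := (a_succ n).1
    omega

/-- a number outside `P` is rejected by the greedy algorithm -/
lemma not_free {m : ℕ} (hm : m ∉ P) : ¬ Free (insert m {p | p ∈ P ∧ p < m}) := by
  intro hfree
  have hX : m / 5 ∉ sums aCeil := by
    intro h
    exact hm ⟨m / 5, h, m % 5, by omega, by omega⟩
  have hXn : m / 5 ∉ AN (m / 5) := fun h => hX (mem_sums.2 ⟨_, h⟩)
  obtain ⟨x, hx, x1, hx1, x2, hx2, h1, h2, h3, h4, h5⟩ := witness (m / 5) (m / 5)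
    (by have := s_ge (m / 5); omega) hXn
  have hxs : x ∈ sums aCeil := mem_sums.2 ⟨_, hx⟩
  have hx1s : x1 ∈ sums aCeil := mem_sums.2 ⟨_, hx1⟩
  have hx2s : x2 ∈ sums aCeil := mem_sums.2 ⟨_, hx2⟩
  -- choose the residues
  obtain ⟨y1, y2, hy1, hy2, hy⟩ : ∃ y1 y2 : ℕ, y1 ≤ 4 ∧ y2 ≤ 4 ∧
      ((y1 : ℤ) - y2 = 2 * (((m / 5 : ℕ) : ℤ) - x) - 5 * ((x1 : ℤ) - x2)) := by
    rcases le_total 0 (2 * (((m / 5 : ℕ) : ℤ) - x) - 5 * ((x1 : ℤ) - x2)) with h | h
    · exact ⟨(2 * (((m / 5 : ℕ) : ℤ) - x) - 5 * ((x1 : ℤ) - x2)).toNat, 0, by omega, by omega,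
        by omega⟩
    · exact ⟨0, (-(2 * (((m / 5 : ℕ) : ℤ) - x) - 5 * ((x1 : ℤ) - x2))).toNat, by omega, by omega,
        by omega⟩
  have hp : 5 * x + m % 5 ∈ insert m {p | p ∈ P ∧ p < m} :=
    Or.inr ⟨⟨x, hxs, m % 5, by omega, rfl⟩, by omega⟩
  have hp1 : 5 * x1 + y1 ∈ insert m {p | p ∈ P ∧ p < m} :=
    Or.inr ⟨⟨x1, hx1s, y1, hy1, rfl⟩, by omega⟩
  have hp2 : 5 * x2 + y2 ∈ insert m {p | p ∈ P ∧ p < m} :=
    Or.inr ⟨⟨x2, hx2s, y2, hy2, rfl⟩, by omega⟩
  have := hfree (5 * x1 + y1) hp1 (5 * x + m % 5) hp (5 * x2 + y2) hp2 m (Or.inl rfl) (by omega)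
  omega

lemma zero_mem_P : 0 ∈ P := ⟨0, ⟨∅, by simp⟩, 0, by omega, by omega⟩

/-- membership in `P` is decided by the greedy rule -/
lemma mem_P_iff (m : ℕ) : m ∈ P ↔ Free (insert m {p | p ∈ P ∧ p < m}) := by
  constructor
  · intro hm
    refine P_free.mono ?_
    intro p hp
    rcases hp with rfl | hp
    · exact hm
    · exact hp.1
  · intro h
    by_contra hm
    exact not_free hm h

lemma greedy_range {g : ℕ → ℕ} (hg : IsGreedy g) : Set.range g = P := by
  have hmono : StrictMono g := strictMono_nat_of_lt_succ fun i => (hg.2 i).1.1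
  have key : ∀ m, m ∈ Set.range g ↔ m ∈ P := by
    intro m
    induction m using Nat.strong_induction_on with
    | _ m ih =>
      rcases Nat.eq_zero_or_pos m with h0 | h0
      · subst h0
        exact ⟨fun _ => zero_mem_P, fun _ => ⟨0, hg.1⟩⟩
      · -- the last index with `g i < m`
        have hex : ∃ i, m ≤ g i := ⟨m, hmono.le_apply⟩
        classical
        have hfind := Nat.find_spec hex
        have hmin : ∀ j, j < Nat.find hex → g j < m := fun j hj => by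
          have := Nat.find_min hex hj
          omega
        have hpos : Nat.find hex ≠ 0 := by
          intro h
          rw [h, hg.1] at hfind
          omega
        obtain ⟨i, hi⟩ := Nat.exists_eq_succ_of_ne_zero hpos
        rw [hi] at hfind hmin
        have hset : {x | ∃ j ≤ i, x = g j} = {p | p ∈ P ∧ p < m} := by
          ext x
          constructor
          · rintro ⟨j, hj, rfl⟩
            have hlt := hmin j (by omega)
            exact ⟨(ih _ hlt).1 ⟨j, rfl⟩, hlt⟩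
          · rintro ⟨hxP, hxm⟩
            obtain ⟨j, rfl⟩ := (ih x hxm).2 hxP
            refine ⟨j, ?_, rfl⟩
            by_contra hcon
            push Not at hcon
            have := hmono.monotone (show i + 1 ≤ j by omega)
            have h5 : m ≤ g (i + 1) := hfind
            omega
        have hleast := hg.2 i
        rw [hset] at hleast
        rw [mem_P_iff]
        constructor
        · rintro ⟨j, hj⟩
          have hji : j = i + 1 := by
            have h1 : i < j := by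
              by_contra hcon
              have := hmin j (by omega)
              omega
            by_contra hne
            have h2 : i + 1 < j := by omega
            have := hmono h2
            have h5 : m ≤ g (i + 1) := hfind
            omega
          rw [← hj, hji]
          have h6 : g (i + 1) = m := by rw [← hji]; exact hj
          have := hleast.1.2
          rw [h6] at this ⊢
          exact this
        · intro hfree
          refine ⟨i + 1, ?_⟩
          refine le_antisymm (hleast.2 ⟨hmin i (by omega), hfree⟩) hfind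
  ext m
  exact key m

lemma P_infinite : P.Infinite := by
  refine Set.infinite_of_not_bddAbove ?_
  rintro ⟨B, hB⟩
  have h1 : 5 * s (B + 1) ∈ P :=
    ⟨s (B + 1), ⟨Finset.range (B + 1 + 1), rfl⟩, 0, by omega, by omega⟩
  have h2 := hB h1
  have := s_ge (B + 1)
  omega

lemma exists_greedy : ∃ g, IsGreedy g := by
  classical
  refine ⟨Nat.nth (· ∈ P), ?_, ?_⟩
  · exact Nat.nth_zero_of_zero zero_mem_P
  · intro i
    have hset : ∀ m, Nat.nth (· ∈ P) i < m → m ≤ Nat.nth (· ∈ P) (i + 1) →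
        {x | ∃ j ≤ i, x = Nat.nth (· ∈ P) j} = {p | p ∈ P ∧ p < m} := by
      intro m hm1 hm2
      ext x
      constructor
      · rintro ⟨j, hj, rfl⟩
        exact ⟨Nat.nth_mem_of_infinite P_infinite j,
          (Nat.nth_monotone P_infinite hj).trans_lt hm1⟩
      · rintro ⟨hxP, hxm⟩
        obtain ⟨j, hj⟩ : ∃ j, Nat.nth (· ∈ P) j = x := ⟨_, Nat.nth_count hxP⟩
        refine ⟨j, ?_, hj.symm⟩
        by_contra hcon
        push Not at hcon
        have h9 : Nat.nth (· ∈ P) (i + 1) ≤ Nat.nth (· ∈ P) j :=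
          Nat.nth_monotone P_infinite (by omega)
        rw [hj] at h9
        exact absurd hxm (not_lt.2 (hm2.trans h9))
    have hlt : Nat.nth (· ∈ P) i < Nat.nth (· ∈ P) (i + 1) :=
      Nat.nth_strictMono P_infinite (Nat.lt_succ_self i)
    constructor
    · refine ⟨hlt, ?_⟩
      rw [hset _ hlt le_rfl]
      exact (mem_P_iff _).1 (Nat.nth_mem_of_infinite P_infinite (i + 1))
    · rintro m ⟨hm1, hm2⟩
      by_contra hcon
      push Not at hcon
      rw [hset m hm1 hcon.le] at hm2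
      have hmP := (mem_P_iff m).2 hm2
      obtain ⟨j, hj⟩ : ∃ j, Nat.nth (· ∈ P) j = m := ⟨_, Nat.nth_count hmP⟩
      rw [← hj] at hm1 hcon
      have h1 := (Nat.nth_strictMono P_infinite).lt_iff_lt.1 hm1
      have h2 := (Nat.nth_strictMono P_infinite).lt_iff_lt.1 hcon
      omega

lemma greedy_unique {g g' : ℕ → ℕ} (h : IsGreedy g) (h' : IsGreedy g') : g = g' := by
  have key : ∀ n, ∀ i ≤ n, g i = g' i := by
    intro n
    induction n with
    | zero =>
      intro i hi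
      have : i = 0 := by omega
      subst this
      rw [h.1, h'.1]
    | succ n ih =>
      intro i hi
      rcases Nat.lt_or_ge i (n + 1) with h1 | h1
      · exact ih i (by omega)
      · have hi' : i = n + 1 := by omega
        subst hi'
        have e1 := h.2 n
        have e2 := h'.2 n
        have hset : {x | ∃ j ≤ n, x = g j} = {x | ∃ j ≤ n, x = g' j} := by
          ext x
          constructor
          · rintro ⟨j, hj, rfl⟩; exact ⟨j, hj, ih j hj⟩
          · rintro ⟨j, hj, rfl⟩; exact ⟨j, hj, (ih j hj).symm⟩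
        rw [hset, ih n le_rfl] at e1
        exact e1.unique e2
  funext i
  exact key i i le_rfl

/-- **Structure of the greedy set.** The greedy sequence `g` exists and is unique; its set of values
is `{5 x + y : x ∈ A, 0 ≤ y ≤ 4}`, where `A` is the set of sums of distinct terms of the
sequence with the *ceiling* `a i = ⌈(5 + 7 ∑_{j < i} a j) / 2⌉`; and it is not the corresponding
set for the sequence with the *floor*. -/
theorem result : ∃ g : ℕ → ℕ, IsGreedy g ∧ (∀ g', IsGreedy g' → g' = g) ∧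
    Set.range g = blocks (sums aCeil) ∧ Set.range g ≠ blocks (sums aFloor) := by
  obtain ⟨g, hg⟩ := exists_greedy
  refine ⟨g, hg, fun g' hg' => greedy_unique hg' hg, greedy_range hg, ?_⟩
  rw [greedy_range hg]
  intro heq
  have h10 : 10 ∈ blocks (sums aFloor) := by
    refine ⟨2, ⟨{1}, ?_⟩, 0, by omega, by omega⟩
    rw [Finset.sum_singleton, aFloor]
    simp [aFloor]
  rw [← heq] at h10
  obtain ⟨x, hx, y, hy, hxy⟩ := h10
  have hx2 : x = 2 := by omega
  subst hx2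
  obtain ⟨n, hn⟩ := mem_sums.1 hx
  have h3 : aCeil 1 = 3 := by
    rw [aCeil]; simp [aCeil]
  have key : ∀ n, 2 ∉ AN n := by
    intro n
    induction n with
    | zero => rw [AN_zero]; norm_num
    | succ n ih =>
      rw [AN_succ]
      rintro (h | ⟨y, _, hy⟩)
      · exact ih h
      · have := (a_succ n).1
        omega
  exact key n hn

end Pool.Agent.Results.MP_cb51c9_co.GreedyStructure
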